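import Mathlib
import Pool.Agent.H.MP_ae5379_an.h81.Core

set_option autoImplicit false

namespace Pool.Agent.Results.MP_ae5379_an.OrthogonalExtreme

/-- The numerical radius of an operator. -/
noncomputable def numRadius {𝕜 : Type} [RCLike 𝕜] {X : Type} [NormedAddCommGroup X] [NormedSpace 𝕜 X]
    (T : X →L[𝕜] X) : ℝ :=
  sSup {r : ℝ | ∃ (x : X) (f : X →L[𝕜] 𝕜), ‖x‖ = 1 ∧ ‖f‖ = 1 ∧ f x = 1 ∧ r = ‖f (T x)‖}

/-- The numerical index of a space. -/
noncomputable def numIndex (𝕜 : Type) [RCLike 𝕜] (X : Type) [NormedAddCommGroup X] [NormedSpace 𝕜 X] : ℝ :=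
  sInf {r : ℝ | ∃ T : X →L[𝕜] X, ‖T‖ = 1 ∧ r = numRadius T}

/-- `v` is an extreme point of the closed unit ball: it lies in the ball and in no open segment between two
different points of the ball. -/
def IsExtremeInBall (𝕜 : Type) [RCLike 𝕜] {V : Type} [NormedAddCommGroup V] [NormedSpace 𝕜 V] (v : V) : Prop :=
  ‖v‖ ≤ 1 ∧ ∀ (y z : V) (t : ℝ), ‖y‖ ≤ 1 → ‖z‖ ≤ 1 → 0 < t → t < 1 →
    v = ((t : ℝ) : 𝕜) • y + (((1 - t : ℝ)) : 𝕜) • z → y = z

theorem isExtremeInBall_of {𝕜 : Type} [RCLike 𝕜] {V : Type} [NormedAddCommGroup V] [NormedSpace 𝕜 V] {v : V}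
    (hv : ‖v‖ ≤ 1) (h : ∀ g : V, ‖v + g‖ ≤ 1 → ‖v - g‖ ≤ 1 → g = 0) : IsExtremeInBall 𝕜 v := by
  refine ⟨hv, fun y z t hy hz ht0 ht1 e => ?_⟩
  obtain ⟨s, hs⟩ : ∃ s : ℝ, s = min t (1 - t) := ⟨_, rfl⟩
  have hs0 : 0 < s := by rw [hs]; exact lt_min ht0 (by linarith)
  have hs1 : s ≤ t := by rw [hs]; exact min_le_left _ _
  have hs2 : s ≤ 1 - t := by rw [hs]; exact min_le_right _ _
  have hconv : ∀ a : ℝ, 0 ≤ a → a ≤ 1 → ‖((a : ℝ) : 𝕜) • y + (((1 - a : ℝ)) : 𝕜) • z‖ ≤ 1 := by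
    intro a ha0 ha1
    refine (norm_add_le _ _).trans ?_
    rw [norm_smul, norm_smul, RCLike.norm_ofReal, RCLike.norm_ofReal, abs_of_nonneg ha0,
      abs_of_nonneg (by linarith)]
    nlinarith
  have h1 := hconv (t + s) (by linarith) (by linarith)
  have h2 := hconv (t - s) (by linarith) (by linarith)
  have e1 : v + ((s : ℝ) : 𝕜) • (y - z) = (((t + s : ℝ)) : 𝕜) • y + (((1 - (t + s) : ℝ)) : 𝕜) • z := by
    rw [e]; push_cast; module
  have e2 : v - ((s : ℝ) : 𝕜) • (y - z) = (((t - s : ℝ)) : 𝕜) • y + (((1 - (t - s) : ℝ)) : 𝕜) • z := by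
    rw [e]; push_cast; module
  have h3 := h (((s : ℝ) : 𝕜) • (y - z)) (by rw [e1]; exact h1) (by rw [e2]; exact h2)
  have hsk : ((s : ℝ) : 𝕜) ≠ 0 := by exact_mod_cast hs0.ne'
  exact sub_eq_zero.1 ((smul_eq_zero.1 h3).resolve_left hsk)

/-- Over the real and over the complex field there are a Banach space with numerical index one, an extreme
point `x` of its unit ball and an extreme point `f` of the unit ball of its dual with `f x = 0`. -/
theorem result (𝕜 : Type) [RCLike 𝕜] :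
    ∃ (X : Type) (_ : NormedAddCommGroup X) (_ : NormedSpace 𝕜 X),
      CompleteSpace X ∧ numIndex 𝕜 X = 1 ∧
        ∃ (x : X) (f : X →L[𝕜] 𝕜), IsExtremeInBall 𝕜 x ∧ IsExtremeInBall 𝕜 f ∧ f x = 0 := by
  refine ⟨H.MP_ae5379_an.h81.E 𝕜, inferInstance, inferInstance, inferInstance, ?_, ?_⟩
  · have hne := H.MP_ae5379_an.h81.E_nontrivial (𝕜 := 𝕜)
    have hnum : ∀ T : H.MP_ae5379_an.h81.E 𝕜 →L[𝕜] H.MP_ae5379_an.h81.E 𝕜, ‖T‖ = 1 →
        numRadius T = 1 := by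
      intro T hT
      have hbdd : BddAbove {r : ℝ | ∃ (x : H.MP_ae5379_an.h81.E 𝕜)
          (f : H.MP_ae5379_an.h81.E 𝕜 →L[𝕜] 𝕜), ‖x‖ = 1 ∧ ‖f‖ = 1 ∧ f x = 1 ∧ r = ‖f (T x)‖} := by
        refine ⟨1, ?_⟩
        rintro r ⟨x, f, hx, hf, -, rfl⟩
        have h1 := f.le_opNorm (T x)
        have h2 := T.le_opNorm x
        rw [hT, hx] at h2
        rw [hf] at h1
        linarith
      apply le_antisymm
      · apply csSup_le
        · obtain ⟨x, f, h1, h2, h3, -⟩ := H.MP_ae5379_an.h81.numerical_index_one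
            (H.MP_ae5379_an.h81.J 𝕜) H.MP_ae5379_an.h81.rich_J hne T 1 one_pos
          exact ⟨_, x, f, h1, h2, h3, rfl⟩
        · rintro r ⟨x, f, hx, hf, -, rfl⟩
          have h1 := f.le_opNorm (T x)
          have h2 := T.le_opNorm x
          rw [hT, hx] at h2
          rw [hf] at h1
          linarith
      · apply le_of_forall_pos_lt_add
        intro ε hε
        obtain ⟨x, f, h1, h2, h3, h4⟩ := H.MP_ae5379_an.h81.numerical_index_one
          (H.MP_ae5379_an.h81.J 𝕜) H.MP_ae5379_an.h81.rich_J hne T ε hε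
        have h5 : ‖f (T x)‖ ≤ numRadius T := le_csSup hbdd ⟨x, f, h1, h2, h3, rfl⟩
        rw [hT] at h4
        linarith
    have hset : {r : ℝ | ∃ T : H.MP_ae5379_an.h81.E 𝕜 →L[𝕜] H.MP_ae5379_an.h81.E 𝕜,
        ‖T‖ = 1 ∧ r = numRadius T} = {1} := by
      ext r
      constructor
      · rintro ⟨T, hT, rfl⟩
        exact hnum T hT
      · intro hr
        have : Nontrivial (H.MP_ae5379_an.h81.E 𝕜) := by
          obtain ⟨y, hy⟩ := hne
          exact ⟨y, 0, hy⟩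
        refine ⟨ContinuousLinearMap.id 𝕜 _, ContinuousLinearMap.norm_id, ?_⟩
        rw [hnum _ ContinuousLinearMap.norm_id]
        exact hr
    unfold numIndex
    rw [hset, csInf_singleton]
  · obtain ⟨x, hx1, hx2, -, hx4⟩ := H.MP_ae5379_an.h81.exists_extreme_point (𝕜 := 𝕜)
    obtain ⟨r, -, hr⟩ := H.MP_ae5379_an.h81.exists_good_point Set.univ isOpen_univ Set.univ_nonempty
    refine ⟨x, H.MP_ae5379_an.h81.ev r, isExtremeInBall_of hx1 hx2,
      isExtremeInBall_of (H.MP_ae5379_an.h81.norm_ev_le r)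
        (fun g => H.MP_ae5379_an.h81.ev_extreme r hr g), ?_⟩
    rw [H.MP_ae5379_an.h81.ev_apply]
    exact hx4 r

end Pool.Agent.Results.MP_ae5379_an.OrthogonalExtreme
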